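import Pool.Agent.helper89.PU.Spec1

/-!
Project PU (MP_2e0e07_nt), row `DBR`: first order calculus for the products `dprod g h e n`.
-/

set_option autoImplicit false

namespace Pool.Agent.PV

open Matrix Polynomial Pool.Agent.GO Pool.Agent.AR Pool.Agent.RG Pool.Agent.HZ Pool.Agent.DS
  Pool.Agent.AX Pool.Agent.UM Pool.Agent.PU MeasureTheory NumberField

/-- `M` is close to the scalar `s`, and `lam w M` is close to `s y` -/
def DBR_app {K : Type} [NormedField K] (w : Fin 2 → K) (b : ℝ) (M : Matrix (Fin 2) (Fin 2) K) (s y : K) : Prop :=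
  ‖s‖ = 1 ∧ (∀ i j, ‖(M - s • (1 : Matrix (Fin 2) (Fin 2) K)) i j‖ ≤ b) ∧ ‖lam w M - s * y‖ ≤ b ^ 2

theorem DBR_one {K : Type} [NormedField K] (w : Fin 2 → K) (b : ℝ) (hb : 0 ≤ b) :
    DBR_app w b (1 : Matrix (Fin 2) (Fin 2) K) 1 0 := by
  refine ⟨norm_one, fun i j => ?_, ?_⟩
  · rw [one_smul, sub_self, Matrix.zero_apply, norm_zero]; exact hb
  · have h := lam_scalar w (1 : K)
    rw [one_smul] at h
    rw [h, mul_zero, sub_zero, norm_zero]
    positivity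

theorem DBR_lamE {K : Type} [NormedField K] (w : Fin 2 → K) (M : Matrix (Fin 2) (Fin 2) K) (s : K) :
    lam w (M - s • (1 : Matrix (Fin 2) (Fin 2) K)) = lam w M := by
  have h1 : M - s • (1 : Matrix (Fin 2) (Fin 2) K) = M + (-s) • (1 : Matrix (Fin 2) (Fin 2) K) := by
    rw [neg_smul, sub_eq_add_neg]
  rw [h1, lam_add, lam_scalar, add_zero]

theorem DBR_mul {K : Type} [NormedField K] [IsUltrametricDist K] (w : Fin 2 → K) (hw : ∀ i, ‖w i‖ ≤ 1) (b : ℝ)
    (hb : 0 ≤ b) (hb1 : b ≤ 1) (M M' : Matrix (Fin 2) (Fin 2) K) (s s' y y' : K) (h : DBR_app w b M s y)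
    (h' : DBR_app w b M' s' y') : DBR_app w b (M * M') (s * s') (y + y') := by
  obtain ⟨h1, h2, h3⟩ := h
  obtain ⟨h1', h2', h3'⟩ := h'
  obtain ⟨E, hE⟩ : ∃ E, E = M - s • (1 : Matrix (Fin 2) (Fin 2) K) := ⟨_, rfl⟩
  obtain ⟨E', hE'⟩ : ∃ E', E' = M' - s' • (1 : Matrix (Fin 2) (Fin 2) K) := ⟨_, rfl⟩
  have hM : M = E + s • 1 := by rw [hE]; abel
  have hM' : M' = E' + s' • 1 := by rw [hE']; abel
  have hlE : lam w E = lam w M := by rw [hE]; exact DBR_lamE w M s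
  have hlE' : lam w E' = lam w M' := by rw [hE']; exact DBR_lamE w M' s'
  rw [← hE] at h2
  rw [← hE'] at h2'
  have hmul : M * M' = (s • E' + s' • E + E * E') + (s * s') • 1 := by
    conv_lhs => rw [hM, hM']
    simp only [Matrix.add_mul, Matrix.mul_add, Matrix.smul_mul, Matrix.mul_smul, Matrix.one_mul, Matrix.mul_one]
    module
  refine ⟨by rw [norm_mul, h1, h1', one_mul], fun i j => ?_, ?_⟩
  · rw [hmul, add_sub_cancel_right, Matrix.add_apply, Matrix.add_apply, Matrix.smul_apply, Matrix.smul_apply,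
      smul_eq_mul, smul_eq_mul]
    refine nadd (nadd ?_ ?_) ?_
    · rw [norm_mul, h1, one_mul]; exact h2' i j
    · rw [norm_mul, h1', one_mul]; exact h2 i j
    · refine (entry_mul_le h2 h2' i j).trans ?_
      exact mul_le_of_le_one_left hb hb1
  · have hl : lam w (M * M') = s * lam w M' + s' * lam w M + lam w (E * E') := by
      rw [hmul, lam_add, lam_scalar, add_zero, lam_add, lam_add, lam_smul, lam_smul, hlE, hlE']
    have he : lam w (M * M') - s * s' * (y + y') =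
        s * (lam w M' - s' * y') + s' * (lam w M - s * y) + lam w (E * E') := by
      rw [hl]; ring
    rw [he]
    refine nadd (nadd ?_ ?_) ?_
    · rw [norm_mul, h1, one_mul]; exact h3'
    · rw [norm_mul, h1', one_mul]; exact h3
    · refine (lam_le hw _).trans (nu_le_of_entry fun i j => ?_)
      rw [pow_two]
      exact entry_mul_le h2 h2' i j

theorem DBR_pow {K : Type} [NormedField K] [IsUltrametricDist K] (w : Fin 2 → K) (hw : ∀ i, ‖w i‖ ≤ 1) (b : ℝ)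
    (hb : 0 ≤ b) (hb1 : b ≤ 1) (M : Matrix (Fin 2) (Fin 2) K) (s y : K) (h : DBR_app w b M s y) (k : ℕ) :
    DBR_app w b (M ^ k) (s ^ k) (k * y) := by
  induction k with
  | zero => simpa using DBR_one w b hb
  | succ k ih =>
    have h1 := DBR_mul w hw b hb hb1 _ _ _ _ _ _ ih h
    rw [← pow_succ, ← pow_succ] at h1
    have h2 : (k : K) * y + y = ((k + 1 : ℕ) : K) * y := by push_cast; ring
    rw [h2] at h1
    exact h1

theorem DBR_conj {Γ K : Type} [Group Γ] [NormedField K] [IsUltrametricDist K]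
    (R : Γ →* Matrix (Fin 2) (Fin 2) K) (hR : ∀ g i j, ‖R g i j‖ ≤ 1) (g : Γ) (w : Fin 2 → K) (x : K) (b : ℝ)
    (hx : ‖x‖ = 1) (hg : ∀ Y, lam w (R g * Y * R g⁻¹) = x * lam w Y)
    (M : Matrix (Fin 2) (Fin 2) K) (s y : K) (h : DBR_app w b M s y) :
    DBR_app w b (R g * M * R g⁻¹) s (x * y) := by
  obtain ⟨h1, h2, h3⟩ := h
  refine ⟨h1, fun i j => ?_, ?_⟩
  · have he : R g * M * R g⁻¹ - s • (1 : Matrix (Fin 2) (Fin 2) K) =
        R g * (M - s • (1 : Matrix (Fin 2) (Fin 2) K)) * R g⁻¹ := by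
      rw [Matrix.mul_sub, Matrix.sub_mul, Matrix.mul_smul, Matrix.mul_one, Matrix.smul_mul, hom_mul_inv']
    rw [he]
    have h4 := entry_mul_le (b := 1 * b) (c := 1) (fun i j => entry_mul_le (hR g) h2 i j) (hR g⁻¹) i j
    rwa [one_mul, mul_one] at h4
  · have he : lam w (R g * M * R g⁻¹) - s * (x * y) = x * (lam w M - s * y) := by
      rw [hg]; ring
    rw [he, norm_mul, hx, one_mul]
    exact h3

theorem DBR_conjpow {Γ K : Type} [Group Γ] [NormedField K] [IsUltrametricDist K]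
    (R : Γ →* Matrix (Fin 2) (Fin 2) K) (hR : ∀ g i j, ‖R g i j‖ ≤ 1) (g : Γ) (w : Fin 2 → K) (x : K) (b : ℝ)
    (hx : ‖x‖ = 1) (hg : ∀ Y, lam w (R g * Y * R g⁻¹) = x * lam w Y)
    (h : Γ) (s y : K) (hh : DBR_app w b (R h) s y) (k : ℕ) :
    DBR_app w b (R (g ^ k * h * (g ^ k)⁻¹)) s (x ^ k * y) := by
  induction k with
  | zero => simpa using hh
  | succ k ih =>
    have h1 := DBR_conj R hR g w x b hx hg _ _ _ ih
    have h2 : R g * R (g ^ k * h * (g ^ k)⁻¹) * R g⁻¹ = R (g ^ (k + 1) * h * (g ^ (k + 1))⁻¹) := by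
      rw [← map_mul, ← map_mul]
      congr 1
      rw [pow_succ' g k]
      group
    have h3 : x * (x ^ k * y) = x ^ (k + 1) * y := by rw [pow_succ']; ring
    rw [h2, h3] at h1
    exact h1

theorem DBR_base {Γ K : Type} [Group Γ] [NormedField K] [IsUltrametricDist K]
    (R : Γ →* Matrix (Fin 2) (Fin 2) K) (hR : ∀ g i j, ‖R g i j‖ ≤ 1) (h : Γ) (w : Fin 2 → K) (b : ℝ)
    (hb : nu (R h) ≤ b) (hb1 : b < 1) :
    ‖R h 1 1‖ = 1 ∧ DBR_app w b (R h) (R h 1 1) (lam w (R h) / R h 1 1) := by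
  have h1 : ‖R h 1 1‖ = 1 := diag_unit (hR h) (det_unit hR h) (hb.trans_lt hb1)
  have h0 : R h 1 1 ≠ 0 := by
    intro h0
    rw [h0, norm_zero] at h1
    exact zero_ne_one h1
  refine ⟨h1, h1, fun i j => (entry_sub_le (R h) i j).trans hb, ?_⟩
  rw [mul_div_cancel₀ _ h0, sub_self, norm_zero]
  positivity

theorem DBR_prod {Γ K : Type} [Group Γ] [NormedField K] [IsUltrametricDist K]
    (R : Γ →* Matrix (Fin 2) (Fin 2) K) (hR : ∀ g i j, ‖R g i j‖ ≤ 1) (g h : Γ) (w : Fin 2 → K) (x : K) (b : ℝ)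
    (hw : ∀ i, ‖w i‖ ≤ 1) (hx : ‖x‖ = 1) (hg : ∀ Y, lam w (R g * Y * R g⁻¹) = x * lam w Y)
    (hb0 : 0 ≤ b) (hb1 : b ≤ 1) (s y : K) (hh : DBR_app w b (R h) s y) (e : ℕ → ℕ) (n : ℕ) :
    ∃ s' : K, DBR_app w b (R (dprod g h e n)) s' ((∑ k ∈ Finset.range n, (e k : K) * x ^ k) * y) := by
  induction n with
  | zero =>
    refine ⟨1, ?_⟩
    have h1 : R (dprod g h e 0) = 1 := by
      show R 1 = 1
      exact map_one R
    rw [h1, Finset.range_zero, Finset.sum_empty, zero_mul]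
    exact DBR_one w b hb0
  | succ n ih =>
    obtain ⟨s', hs'⟩ := ih
    have h1 : DBR_app w b (R (h ^ e n)) (s ^ e n) ((e n : K) * y) := by
      rw [map_pow]
      exact DBR_pow w hw b hb0 hb1 _ _ _ hh (e n)
    have h2 := DBR_conjpow R hR g w x b hx hg _ _ _ h1 n
    have h3 := DBR_mul w hw b hb0 hb1 _ _ _ _ _ _ hs' h2
    refine ⟨s' * s ^ e n, ?_⟩
    have h4 : R (dprod g h e (n + 1)) = R (dprod g h e n) * R (g ^ n * h ^ e n * (g ^ n)⁻¹) := by
      rw [← map_mul]; rfl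
    have h5 : (∑ k ∈ Finset.range (n + 1), (e k : K) * x ^ k) * y =
        (∑ k ∈ Finset.range n, (e k : K) * x ^ k) * y + x ^ n * ((e n : K) * y) := by
      rw [Finset.sum_range_succ]; ring
    rw [h4, h5]
    exact h3

theorem DBR : DBR_stmt := by
  intro Γ K _ _ _ R hR g h w x b hw hx hg hb hb1 e n hlt
  have hb0 : 0 ≤ b := (nu_nonneg _).trans hb
  obtain ⟨h11, hh⟩ := DBR_base R hR h w b hb hb1
  obtain ⟨s', hs1, -, hs3⟩ := DBR_prod R hR g h w x b hw hx hg hb0 hb1.le _ _ hh e n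
  have hn : ‖s' * ((∑ k ∈ Finset.range n, (e k : K) * x ^ k) * (lam w (R h) / R h 1 1))‖ =
      ‖∑ k ∈ Finset.range n, (e k : K) * x ^ k‖ * ‖lam w (R h)‖ := by
    rw [norm_mul, norm_mul, norm_div, hs1, h11, div_one, one_mul]
  rw [← hn] at hlt ⊢
  obtain ⟨T, hT⟩ : ∃ T, T = s' * ((∑ k ∈ Finset.range n, (e k : K) * x ^ k) * (lam w (R h) / R h 1 1)) := ⟨_, rfl⟩
  rw [← hT] at hlt hs3 ⊢
  refine le_trans ?_ (lam_le hw _)
  by_contra hcon
  rw [not_le] at hcon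
  have h1 : T = lam w (R (dprod g h e n)) - (lam w (R (dprod g h e n)) - T) := by ring
  have h2 : ‖T‖ < ‖T‖ := by
    conv_lhs => rw [h1]
    rw [sub_eq_add_neg]
    refine (IsUltrametricDist.norm_add_le_max _ _).trans_lt (max_lt hcon ?_)
    rw [norm_neg]
    exact hs3.trans_lt hlt
  exact lt_irrefl _ h2

end Pool.Agent.PV
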